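import Pool.Agent.Helper25_CN2.Stmts
import Pool.Agent.Helper25_CON.PDLem

/-!
Squad CN2, module T_GR: the Gram matrix of a component.
-/

noncomputable section

namespace Pool.Agent.CN2.H71

open Pool.Agent.H25Cong Pool.Agent.CON Pool.Agent.CN2

lemma length_mat (m : ℕ) (f : ℕ → ℕ → ℤ) : (mat m f).length = m := by
  simp [mat]

lemma ent_mat {m : ℕ} (f : ℕ → ℕ → ℤ) {i j : ℕ} (hi : i < m) (hj : j < m) :
    ent (mat m f) i j = f i j := by
  simp [ent, mat, List.getD_eq_getElem?_getD, hi, hj]

variable {M : Type} [AddCommGroup M] {b : M → M → ℤ}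

/-- the orthogonal part of the basis -/
lemma dpart (hb : PD b) {C : Set M} {s : ℤ} {m : ℕ} (hm : 2 ≤ m) {F : Fin m → M}
    (hF : DFr b C s m F) :
    ∃ d : ℕ → M, (∀ i < m, d i ∈ C) ∧ (∀ i < m, ∀ j < m, b (d i) (d j) = s * cD m i j) ∧
      (∀ α, InD F α → α ∈ AddSubgroup.closure (d '' {i | i < m})) ∧
      (∀ (α : M) (a : ℤ), (∀ i, b α (F i) = a) →
        ∀ i < m, b α (d i) = if i + 1 < m then 0 else a) := by
  obtain ⟨hF1, hF2, hF3⟩ := hF
  set F' : ℕ → M := fun i => if h : i < m then F ⟨i, h⟩ else 0 with hF'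
  have hFe : ∀ i (h : i < m), F' i = F ⟨i, h⟩ := fun i h => by simp [hF', h]
  have hbF : ∀ i j, i < m → j < m → b (F' i) (F' j) = if i = j then 4 * s else 0 := by
    intro i j hi hj
    rw [hFe i hi, hFe j hj]
    split_ifs with hij
    · subst hij; exact hF1 _
    · exact hF2 _ _ (fun h => hij (by simpa using congrArg Fin.val h))
  set G : ℕ → M := fun i => if i + 1 < m then F' i - F' (i + 1) else F' (m - 2) + F' (m - 1)
    with hG
  have hw : ∀ i < m, ∃ w ∈ C, (2 : ℤ) • w = G i := by
    intro i hi
    by_cases h : i + 1 < m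
    · obtain ⟨w, hw, hw'⟩ := (hF3 ⟨i, hi⟩ ⟨i + 1, h⟩ (by simp [Fin.ext_iff])).2
      exact ⟨w, hw, by simp only [hG, h, if_true]; rw [hw', hFe i hi, hFe (i + 1) h]⟩
    · obtain ⟨w, hw, hw'⟩ := (hF3 ⟨m - 2, by omega⟩ ⟨m - 1, by omega⟩
        (by simp only [ne_eq, Fin.mk.injEq]; omega)).1
      exact ⟨w, hw, by
        simp only [hG, h, if_false]
        rw [hw', hFe (m - 2) (by omega), hFe (m - 1) (by omega)]⟩
  choose! d hd hd2 using hw
  refine ⟨d, hd, ?_, ?_, ?_⟩
  · intro i hi j hj
    have h4 : 4 * b (d i) (d j) = b (G i) (G j) := by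
      rw [← hd2 i hi, ← hd2 j hj, hb.zsmul_left, hb.zsmul_right]; ring
    have h5 : b (G i) (G j) = 4 * (s * cD m i j) := by
      by_cases h : i + 1 < m
      · by_cases h' : j + 1 < m
        · simp only [hG, h, h', if_true]
          rw [hb.sub_left, hb.sub_right, hb.sub_right, hbF _ _ hi hj, hbF _ _ hi h',
            hbF _ _ h hj, hbF _ _ h h']
          simp only [cD]
          split_ifs <;> omega
        · simp only [hG, h, h', if_true, if_false]
          rw [hb.sub_left, hb.add_right, hb.add_right, hbF _ _ hi (by omega),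
            hbF _ _ hi (by omega), hbF _ _ h (by omega), hbF _ _ h (by omega)]
          simp only [cD]
          split_ifs <;> omega
      · by_cases h' : j + 1 < m
        · simp only [hG, h, h', if_true, if_false]
          rw [hb.add_left, hb.sub_right, hb.sub_right, hbF _ _ (by omega) hj,
            hbF _ _ (by omega) h', hbF _ _ (by omega) hj, hbF _ _ (by omega) h']
          simp only [cD]
          split_ifs <;> omega
        · simp only [hG, h, h', if_false]
          rw [hb.add_left, hb.add_right, hb.add_right, hbF _ _ (by omega) (by omega),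
            hbF _ _ (by omega) (by omega), hbF _ _ (by omega) (by omega),
            hbF _ _ (by omega) (by omega)]
          simp only [cD]
          split_ifs <;> omega
    rw [h5] at h4
    linarith
  · set H := AddSubgroup.closure (d '' {i | i < m}) with hH
    have hdH : ∀ i < m, d i ∈ H := fun i hi => AddSubgroup.subset_closure ⟨i, hi, rfl⟩
    -- doubling
    have hstep : ∀ i, i + 1 < m → ∃ z ∈ H, (2 : ℤ) • z = F' i - F' (i + 1) := by
      intro i hi
      refine ⟨d i, hdH i (by omega), ?_⟩
      rw [hd2 i (by omega)]; simp [hG, hi]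
    have htel : ∀ l i, i + l < m → ∃ z ∈ H, (2 : ℤ) • z = F' i - F' (i + l) := by
      intro l
      induction l with
      | zero => intro i _; exact ⟨0, H.zero_mem, by simp⟩
      | succ l ih =>
        intro i hi
        obtain ⟨z, hz, hz'⟩ := ih i (by omega)
        obtain ⟨z2, hz2, hz2'⟩ := hstep (i + l) (by omega)
        refine ⟨z + z2, H.add_mem hz hz2, ?_⟩
        rw [smul_add, hz', hz2', add_assoc i l 1]; abel
    have hdiff : ∀ i j, i < m → j < m → ∃ z ∈ H, (2 : ℤ) • z = F' i - F' j := by
      intro i j hi hj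
      rcases le_total i j with h | h
      · obtain ⟨l, rfl⟩ := Nat.exists_eq_add_of_le h
        exact htel l i hj
      · obtain ⟨l, rfl⟩ := Nat.exists_eq_add_of_le h
        obtain ⟨z, hz, hz'⟩ := htel l j hi
        exact ⟨-z, H.neg_mem hz, by rw [smul_neg, hz']; abel⟩
    have hsum : ∀ i j, i < m → j < m → ∃ z ∈ H, (2 : ℤ) • z = F' i + F' j := by
      intro i j hi hj
      obtain ⟨z1, h1, h1'⟩ := hdiff i (m - 2) hi (by omega)
      obtain ⟨z2, h2, h2'⟩ := hdiff j (m - 1) hj (by omega)
      refine ⟨z1 + z2 + d (m - 1), H.add_mem (H.add_mem h1 h2) (hdH _ (by omega)), ?_⟩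
      rw [smul_add, smul_add, h1', h2', hd2 (m - 1) (by omega)]
      have : ¬ (m - 1 + 1 < m) := by omega
      simp only [hG, this, if_false]
      abel
    have htf : ∀ (α z : M), (2 : ℤ) • z = (2 : ℤ) • α → z = α := by
      intro α z h
      have : (2 : ℤ) • (z - α) = 0 := by rw [smul_sub, h, sub_self]
      exact sub_eq_zero.mp (hb.zsmul_eq_zero (by norm_num) this)
    rintro α ⟨i, j, hij, h | h | h⟩
    · obtain ⟨z, hz, hz'⟩ := hsum i j i.2 j.2
      rw [hFe i i.2, hFe j j.2] at hz'
      have := htf α z (by rw [hz', h])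
      rwa [← this]
    · obtain ⟨z, hz, hz'⟩ := hdiff i j i.2 j.2
      rw [hFe i i.2, hFe j j.2] at hz'
      have := htf α z (by rw [hz', h])
      rwa [← this]
    · obtain ⟨z, hz, hz'⟩ := hsum i j i.2 j.2
      rw [hFe i i.2, hFe j j.2] at hz'
      have := htf α (-z) (by rw [smul_neg, hz', h])
      rw [← this]
      exact H.neg_mem hz
  · intro α a hα i hi
    have h2 : 2 * b α (d i) = b α (G i) := by
      rw [← hd2 i hi, hb.zsmul_right]
    have hα' : ∀ i (h : i < m), b α (F' i) = a := fun i h => by rw [hFe i h]; exact hα _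
    by_cases h : i + 1 < m
    · simp only [hG, h, if_true] at h2 ⊢
      rw [hb.sub_right, hα' i hi, hα' (i + 1) h] at h2
      omega
    · simp only [hG, h, if_false] at h2 ⊢
      rw [hb.add_right, hα' _ (by omega), hα' _ (by omega)] at h2
      omega

lemma grA (hb : PD b) {C : Set M} {s : ℤ} (hC : Irr b C s) {k : ℕ} (hk : 1 ≤ k)
    {v : Fin k → M} (hv : AFr b C s k v) (hA : ∀ α ∈ C, InA v α) :
    GrB b (AddSubgroup.closure C) (gr1 (.A k, s)) := by
  obtain ⟨hv1, hv2⟩ := hv
  set v' : ℕ → M := fun i => if h : i < k then v ⟨i, h⟩ else 0 with hv'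
  have hve : ∀ i (h : i < k), v' i = v ⟨i, h⟩ := fun i h => by simp [hv', h]
  have hbv : ∀ i j, i < k → j < k → b (v' i) (v' j) = if i = j then 2 * s else s := by
    intro i j hi hj
    rw [hve i hi, hve j hj]
    split_ifs with hij
    · subst hij; exact hC.norm _ (hv1 _)
    · exact hv2 _ _ (fun h => hij (by simpa using congrArg Fin.val h))
  set c : ℕ → M := fun i => if i = 0 then v' 0 else v' i - v' (i - 1) with hc
  have hlen : (gr1 (.A k, s)).length = k := by simp [gr1, Ty.rk, length_mat]
  refine ⟨c, ?_, ?_, ?_⟩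
  · intro i hi
    rw [hlen] at hi
    have hvm : ∀ i < k, v' i ∈ AddSubgroup.closure C := fun i h => by
      rw [hve i h]; exact AddSubgroup.subset_closure (hv1 _)
    by_cases h : i = 0
    · simp only [hc, h, if_true]; exact hvm 0 (by omega)
    · simp only [hc, h, if_false]
      exact AddSubgroup.sub_mem _ (hvm i hi) (hvm _ (by omega))
  · rw [hlen]
    set H := AddSubgroup.closure (c '' {i | i < k}) with hH
    have hcH : ∀ i < k, c i ∈ H := fun i hi => AddSubgroup.subset_closure ⟨i, hi, rfl⟩
    have hvH : ∀ i < k, v' i ∈ H := by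
      intro i
      induction i with
      | zero => intro h; have := hcH 0 h; simpa [hc] using this
      | succ i ih =>
        intro h
        have h1 := hcH (i + 1) h
        have h2 := H.add_mem h1 (ih (by omega))
        simpa [hc] using h2
    have hvH' : ∀ i, v i ∈ H := fun i => by
      have := hvH i i.2
      rwa [hve i i.2] at this
    have hle : AddSubgroup.closure C ≤ H := by
      rw [AddSubgroup.closure_le]
      intro α hα
      rcases hA α hα with ⟨i, h | h⟩ | ⟨i, j, _, h⟩
      · rw [h]; exact hvH' i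
      · rw [h]; exact H.neg_mem (hvH' i)
      · rw [h]; exact H.sub_mem (hvH' i) (hvH' j)
    exact fun x hx => hle hx
  · rw [hlen]
    intro i hi j hj
    rw [gr1, ent_mat _ (by simpa [Ty.rk] using hi) (by simpa [Ty.rk] using hj)]
    simp only [Ty.car]
    by_cases h : i = 0
    · by_cases h' : j = 0
      · simp only [hc, h, h', if_true]
        rw [hbv _ _ (by omega) (by omega)]
        simp only [cA]; split_ifs <;> first | omega | (simp only [or_false, false_or] at *; omega)
      · simp only [hc, h, h', if_true, if_false]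
        rw [hb.sub_right, hbv _ _ (by omega) (by omega), hbv _ _ (by omega) (by omega)]
        simp only [cA]; split_ifs <;> first | omega | (simp only [or_false, false_or] at *; omega)
    · by_cases h' : j = 0
      · simp only [hc, h, h', if_true, if_false]
        rw [hb.sub_left, hbv _ _ (by omega) (by omega), hbv _ _ (by omega) (by omega)]
        simp only [cA]; split_ifs <;> first | omega | (simp only [or_false, false_or] at *; omega)
      · simp only [hc, h, h', if_false]
        rw [hb.sub_left, hb.sub_right, hb.sub_right, hbv _ _ (by omega) (by omega),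
          hbv _ _ (by omega) (by omega), hbv _ _ (by omega) (by omega),
          hbv _ _ (by omega) (by omega)]
        simp only [cA]; split_ifs <;> first | omega | (simp only [or_false, false_or] at *; omega)

lemma grD (hb : PD b) {C : Set M} {s : ℤ} {k : ℕ} (hk : 4 ≤ k)
    {F : Fin k → M} (hF : DFr b C s k F) (hD : ∀ α ∈ C, InD F α) :
    GrB b (AddSubgroup.closure C) (gr1 (.D k, s)) := by
  obtain ⟨d, h1, h2, h3, _⟩ := dpart hb (by omega) hF
  have hlen : (gr1 (.D k, s)).length = k := by simp [gr1, Ty.rk, length_mat]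
  refine ⟨d, ?_, ?_, ?_⟩
  · rw [hlen]; exact fun i hi => AddSubgroup.subset_closure (h1 i hi)
  · rw [hlen]
    have hle : AddSubgroup.closure C ≤ AddSubgroup.closure (d '' {i | i < k}) := by
      rw [AddSubgroup.closure_le]
      exact fun α hα => h3 α (hD α hα)
    exact fun x hx => hle hx
  · rw [hlen]
    intro i hi j hj
    rw [gr1, ent_mat _ (by simpa [Ty.rk] using hi) (by simpa [Ty.rk] using hj)]
    exact h2 i hi j hj

lemma grE (hb : PD b) {C : Set M} {s : ℤ} (hC : Irr b C s) {k : ℕ}
    (hk : k = 6 ∨ k = 7 ∨ k = 8) {F : Fin (k - 1) → M} {α : M} (hα : α ∈ C)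
    (hF : DFr b C s (k - 1) F) (hαF : ∀ i, b α (F i) = -s)
    (hE : ∀ x ∈ AddSubgroup.closure C,
      x ∈ AddSubgroup.closure ({β | β ∈ C ∧ InD F β} ∪ {α})) :
    GrB b (AddSubgroup.closure C) (gr1 (.E k, s)) := by
  obtain ⟨d, h1, h2, h3, h4⟩ := dpart hb (by omega) hF
  have h4' := h4 α (-s) hαF
  have hlen : (gr1 (.E k, s)).length = k := by simp [gr1, Ty.rk, length_mat]
  set c : ℕ → M := fun i => if i + 1 < k then d i else α with hc
  refine ⟨c, ?_, ?_, ?_⟩
  · rw [hlen]
    intro i hi
    by_cases h : i + 1 < k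
    · simp only [hc, h, if_true]; exact AddSubgroup.subset_closure (h1 i (by omega))
    · simp only [hc, h, if_false]; exact AddSubgroup.subset_closure hα
  · rw [hlen]
    set H := AddSubgroup.closure (c '' {i | i < k}) with hH
    have hle1 : AddSubgroup.closure (d '' {i | i < k - 1}) ≤ H := by
      rw [AddSubgroup.closure_le]
      rintro _ ⟨i, hi, rfl⟩
      have hi' : i < k - 1 := hi
      refine AddSubgroup.subset_closure ⟨i, ?_, ?_⟩
      · show i < k; omega
      · have : i + 1 < k := by omega
        simp only [hc, this, if_true]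
    have hαH : α ∈ H := by
      refine AddSubgroup.subset_closure ⟨k - 1, ?_, ?_⟩
      · show k - 1 < k; omega
      · have : ¬ (k - 1 + 1 < k) := by omega
        simp only [hc, this, if_false]
    have hle : AddSubgroup.closure ({β | β ∈ C ∧ InD F β} ∪ {α}) ≤ H := by
      rw [AddSubgroup.closure_le]
      rintro β (⟨_, hβ⟩ | hβ)
      · exact hle1 (h3 β hβ)
      · rw [Set.mem_singleton_iff] at hβ
        rw [hβ]; exact hαH
    exact fun x hx => hle (hE x hx)
  · rw [hlen]
    intro i hi j hj
    rw [gr1, ent_mat _ (by simpa [Ty.rk] using hi) (by simpa [Ty.rk] using hj)]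
    simp only [Ty.car, cE]
    by_cases h : i + 1 < k
    · by_cases h' : j + 1 < k
      · simp only [hc, h, h', if_true, and_self]
        exact h2 i (by omega) j (by omega)
      · simp only [hc, h, h', if_true, if_false, and_false]
        rw [hb.symm, h4' i (by omega)]
        split_ifs <;> omega
    · by_cases h' : j + 1 < k
      · simp only [hc, h, h', if_true, if_false, false_and]
        rw [h4' j (by omega)]
        split_ifs <;> omega
      · simp only [hc, h, h', if_false, and_self]
        rw [hC.norm α hα]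
        split_ifs <;> omega

theorem t_gr : T_GR := by
  intro M _ b C s τ hb hC hτ
  cases τ with
  | A k => obtain ⟨hk, v, hv, h⟩ := hτ; exact grA hb hC hk hv h
  | D k => obtain ⟨hk, F, hF, h⟩ := hτ; exact grD hb hk hF h
  | E k =>
    obtain ⟨hk, F, α, hα, hF, h1, h2⟩ := hτ
    exact grE hb hC hk hα hF h1 h2

end Pool.Agent.CN2.H71

end
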