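import Pool.Agent.Helper25_CN2.Stmts
import Pool.Agent.Helper25_CON.PDLem

/-!
Squad CN2, module T_NCAP: middle types are not capable.
-/

noncomputable section

namespace Pool.Agent.CN2.H71

open Pool.Agent.H25Cong Pool.Agent.CON Pool.Agent.CN2

variable {M : Type} [AddCommGroup M] {b : M → M → ℤ}

/-- coordinates with respect to a simplex frame -/
lemma coordA {C : Set M} {k : ℕ} {v : Fin k → M} (hA : ∀ α ∈ C, InA v α) :
    ∀ x ∈ AddSubgroup.closure C, ∃ c : Fin k → ℤ, x = ∑ i, c i • v i := by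
  classical
  intro x hx
  induction hx using AddSubgroup.closure_induction with
  | mem x hx =>
    rcases hA x hx with ⟨i, h | h⟩ | ⟨i, j, _, h⟩
    · exact ⟨Pi.single i 1, by
        rw [h, Finset.sum_eq_single i] <;> simp +contextual [Pi.single_apply]⟩
    · exact ⟨Pi.single i (-1), by
        rw [h, Finset.sum_eq_single i] <;> simp +contextual [Pi.single_apply]⟩
    · refine ⟨Pi.single i 1 - Pi.single j 1, ?_⟩
      simp only [Pi.sub_apply, sub_smul, Finset.sum_sub_distrib]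
      rw [h, Finset.sum_eq_single i (by simp +contextual [Pi.single_apply])
        (by simp), Finset.sum_eq_single j (by simp +contextual [Pi.single_apply]) (by simp)]
      simp
  | zero => exact ⟨0, by simp⟩
  | add x y _ _ hx hy =>
    obtain ⟨c, rfl⟩ := hx
    obtain ⟨d, rfl⟩ := hy
    exact ⟨c + d, by simp [add_smul, Finset.sum_add_distrib]⟩
  | neg x _ hx =>
    obtain ⟨c, rfl⟩ := hx
    exact ⟨-c, by simp⟩

/-- coordinates with respect to an orthogonal frame -/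
lemma coordD {C : Set M} {k : ℕ} {F : Fin k → M} (hD : ∀ α ∈ C, InD F α) :
    ∀ x ∈ AddSubgroup.closure C, ∃ c : Fin k → ℤ, (2 : ℤ) • x = ∑ i, c i • F i := by
  classical
  intro x hx
  have hs : ∀ i : Fin k, ∑ l, (Pi.single i (1 : ℤ) : Fin k → ℤ) l • F l = F i := by
    intro i
    rw [Finset.sum_eq_single i (by simp +contextual [Pi.single_apply]) (by simp)]
    simp
  induction hx using AddSubgroup.closure_induction with
  | mem x hx =>
    obtain ⟨i, j, _, h | h | h⟩ := hD x hx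
    · refine ⟨Pi.single i 1 + Pi.single j 1, ?_⟩
      simp only [Pi.add_apply, add_smul, Finset.sum_add_distrib]
      rw [h, hs, hs]
    · refine ⟨Pi.single i 1 - Pi.single j 1, ?_⟩
      simp only [Pi.sub_apply, sub_smul, Finset.sum_sub_distrib]
      rw [h, hs, hs]
    · refine ⟨-(Pi.single i 1 + Pi.single j 1), ?_⟩
      simp only [Pi.neg_apply, Pi.add_apply, neg_smul, add_smul, Finset.sum_neg_distrib,
        Finset.sum_add_distrib]
      rw [h, hs, hs]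
  | zero => exact ⟨0, by simp⟩
  | add x y _ _ hx hy =>
    obtain ⟨c, hc⟩ := hx
    obtain ⟨d, hd⟩ := hy
    exact ⟨c + d, by simp [smul_add, add_smul, Finset.sum_add_distrib, hc, hd]⟩
  | neg x _ hx =>
    obtain ⟨c, hc⟩ := hx
    exact ⟨-c, by simp [hc]⟩

/-- a product of an odd number and n is divisible by 4 only if n is -/
lemma four_dvd_of_odd {s n : ℤ} (hs : ¬ (2 : ℤ) ∣ s) (h : (4 : ℤ) ∣ s * n) : (4 : ℤ) ∣ n := by
  have hc : IsCoprime (4 : ℤ) s := by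
    have h2 : IsCoprime (2 : ℤ) s := (Int.prime_two.coprime_iff_not_dvd).mpr hs
    have : (4 : ℤ) = 2 ^ 2 := by norm_num
    rw [this]; exact h2.pow_left
  exact hc.dvd_of_dvd_mul_left h

lemma ncapA2 (hb : PD b) {C : Set M} {s : ℤ} (hC : Irr b C s) (hs : ¬ (2 : ℤ) ∣ s)
    {v : Fin 2 → M} (hv : AFr b C s 2 v) (hA : ∀ α ∈ C, InA v α) : ¬ Cap b C := by
  rintro ⟨x, hx, h4, y, hy, hxy⟩
  apply hxy
  obtain ⟨c, rfl⟩ := coordA hA x hx
  obtain ⟨d, rfl⟩ := coordA hA y hy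
  have h00 := hC.norm _ (hv.1 0)
  have h11 := hC.norm _ (hv.1 1)
  have h01 := hv.2 0 1 (by decide)
  have h10 := hv.2 1 0 (by decide)
  simp only [Fin.sum_univ_two] at h4 ⊢
  simp only [hb.add_left, hb.add_right, hb.zsmul_left, hb.zsmul_right, h00, h11, h01, h10]
    at h4 ⊢
  have h5 : (4 : ℤ) ∣ s * (2 * (c 0 * c 0 + c 0 * c 1 + c 1 * c 1)) := by
    convert h4 using 1; ring
  have h6 := four_dvd_of_odd hs h5
  have h7 : (c 0 * c 0 + c 0 * c 1 + c 1 * c 1) % 2 = 0 := by omega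
  have key : c 0 % 2 = 0 ∧ c 1 % 2 = 0 := by
    rcases Int.emod_two_eq_zero_or_one (c 0) with h | h <;>
    rcases Int.emod_two_eq_zero_or_one (c 1) with h' | h' <;>
    simp [Int.add_emod, Int.mul_emod, h, h'] at h7 ⊢
  obtain ⟨⟨a, ha⟩, ⟨e, he⟩⟩ : (∃ a, c 0 = 2 * a) ∧ ∃ e, c 1 = 2 * e :=
    ⟨⟨c 0 / 2, by omega⟩, ⟨c 1 / 2, by omega⟩⟩
  rw [ha, he]
  exact ⟨s * (2 * a * d 0 + a * d 1 + e * d 0 + 2 * e * d 1), by ring⟩

lemma parity4 (a b c d : ℤ) (h : (4 : ℤ) ∣ a * a + b * b + c * c + d * d) :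
    a % 2 = b % 2 ∧ b % 2 = c % 2 ∧ c % 2 = d % 2 := by
  have h' : (a * a + b * b + c * c + d * d) % 4 = 0 := by omega
  have ha : a % 4 = 0 ∨ a % 4 = 1 ∨ a % 4 = 2 ∨ a % 4 = 3 := by omega
  have hb : b % 4 = 0 ∨ b % 4 = 1 ∨ b % 4 = 2 ∨ b % 4 = 3 := by omega
  have hc : c % 4 = 0 ∨ c % 4 = 1 ∨ c % 4 = 2 ∨ c % 4 = 3 := by omega
  have hd : d % 4 = 0 ∨ d % 4 = 1 ∨ d % 4 = 2 ∨ d % 4 = 3 := by omega
  have sq : ∀ z : ℤ, (z % 2 = 0 ∧ (z * z) % 4 = 0) ∨ (z % 2 = 1 ∧ (z * z) % 4 = 1) := by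
    intro z
    rcases Int.emod_two_eq_zero_or_one z with h | h
    · left
      obtain ⟨w, rfl⟩ : ∃ w, z = 2 * w := ⟨z / 2, by omega⟩
      refine ⟨h, ?_⟩
      have : 2 * w * (2 * w) = 4 * (w * w) := by ring
      omega
    · right
      obtain ⟨w, rfl⟩ : ∃ w, z = 2 * w + 1 := ⟨z / 2, by omega⟩
      refine ⟨h, ?_⟩
      have : (2 * w + 1) * (2 * w + 1) = 4 * (w * w + w) + 1 := by ring
      omega
  rcases sq a with ⟨h1, h2⟩ | ⟨h1, h2⟩ <;> rcases sq b with ⟨h3, h4⟩ | ⟨h3, h4⟩ <;>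
  rcases sq c with ⟨h5, h6⟩ | ⟨h5, h6⟩ <;> rcases sq d with ⟨h7, h8⟩ | ⟨h7, h8⟩ <;> omega

lemma ncapA3 (hb : PD b) {C : Set M} {s : ℤ} (hC : Irr b C s) (hs : ¬ (2 : ℤ) ∣ s)
    {v : Fin 3 → M} (hv : AFr b C s 3 v) (hA : ∀ α ∈ C, InA v α) : ¬ Cap b C := by
  rintro ⟨x, hx, h4, y, hy, hxy⟩
  apply hxy
  obtain ⟨c, rfl⟩ := coordA hA x hx
  obtain ⟨d, rfl⟩ := coordA hA y hy
  have h00 := hC.norm _ (hv.1 0)
  have h11 := hC.norm _ (hv.1 1)
  have h22 := hC.norm _ (hv.1 2)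
  have h01 := hv.2 0 1 (by decide)
  have h10 := hv.2 1 0 (by decide)
  have h02 := hv.2 0 2 (by decide)
  have h20 := hv.2 2 0 (by decide)
  have h12 := hv.2 1 2 (by decide)
  have h21 := hv.2 2 1 (by decide)
  simp only [Fin.sum_univ_three] at h4 ⊢
  simp only [hb.add_left, hb.add_right, hb.zsmul_left, hb.zsmul_right, h00, h11, h22, h01,
    h10, h02, h20, h12, h21] at h4 ⊢
  have h5 : (4 : ℤ) ∣ s * (c 0 * c 0 + c 1 * c 1 + c 2 * c 2
      + (c 0 + c 1 + c 2) * (c 0 + c 1 + c 2)) := by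
    convert h4 using 1; ring
  have h6 := parity4 _ _ _ _ (four_dvd_of_odd hs h5)
  obtain ⟨⟨p, hp⟩, ⟨q, hq⟩, ⟨r, hr⟩⟩ : (∃ p, 2 * c 0 + c 1 + c 2 = 2 * p) ∧
      (∃ q, c 0 + 2 * c 1 + c 2 = 2 * q) ∧ ∃ r, c 0 + c 1 + 2 * c 2 = 2 * r :=
    ⟨⟨(2 * c 0 + c 1 + c 2) / 2, by omega⟩, ⟨(c 0 + 2 * c 1 + c 2) / 2, by omega⟩,
      ⟨(c 0 + c 1 + 2 * c 2) / 2, by omega⟩⟩
  refine ⟨s * (p * d 0 + q * d 1 + r * d 2), ?_⟩
  have : 2 * (s * (p * d 0 + q * d 1 + r * d 2))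
      = s * ((2 * p) * d 0 + (2 * q) * d 1 + (2 * r) * d 2) := by ring
  rw [this, ← hp, ← hq, ← hr]
  ring

lemma ncapD4 (hb : PD b) {C : Set M} {s : ℤ} (hs0 : 0 < s) (hs : ¬ (2 : ℤ) ∣ s)
    {F : Fin 4 → M} (hF : DFr b C s 4 F) (hD : ∀ α ∈ C, InD F α) : ¬ Cap b C := by
  rintro ⟨x, hx, h4, y, hy, hxy⟩
  apply hxy
  obtain ⟨c, hc⟩ := coordD hD x hx
  obtain ⟨hF1, hF2, _⟩ := hF
  have hbF : ∀ i, b ((2 : ℤ) • x) (F i) = 4 * s * c i := by
    intro i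
    rw [hc, hb.sum_left, Finset.sum_eq_single i]
    · rw [hb.zsmul_left, hF1]; ring
    · intro j _ hj
      rw [hb.zsmul_left, hF2 j i hj, mul_zero]
    · simp
  have hnorm : 4 * b x x = 4 * (s * (c 0 * c 0 + c 1 * c 1 + c 2 * c 2 + c 3 * c 3)) := by
    have h1 : b ((2 : ℤ) • x) ((2 : ℤ) • x) = ∑ i, c i * (4 * s * c i) := by
      conv_lhs => rw [hc, hb.symm, ← hc]
      rw [hc, hb.sum_right]
      rw [← hc]
      exact Finset.sum_congr rfl fun i _ => by rw [hb.zsmul_right, hbF]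
    rw [hb.zsmul_left, hb.zsmul_right, Fin.sum_univ_four] at h1
    linarith
  have h5 : (4 : ℤ) ∣ s * (c 0 * c 0 + c 1 * c 1 + c 2 * c 2 + c 3 * c 3) := by
    have : b x x = s * (c 0 * c 0 + c 1 * c 1 + c 2 * c 2 + c 3 * c 3) := by linarith
    rwa [← this]
  have h6 := parity4 _ _ _ _ (four_dvd_of_odd hs h5)
  have hpar : ∀ i j, c i % 2 = c j % 2 := by
    have h0 : ∀ i, c i % 2 = c 0 % 2 := by
      intro i; fin_cases i <;> simp <;> omega
    intro i j; rw [h0 i, h0 j]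
  rw [hb.symm]
  refine hb.closure_dvd ?_ y hy
  intro α hα
  obtain ⟨i, j, hij, h⟩ := hD α hα
  have e1 : b ((2 : ℤ) • x) ((2 : ℤ) • α) = 4 * b α x := by
    rw [hb.zsmul_left, hb.zsmul_right, hb.symm x α]; ring
  have := hpar i j
  rcases h with h | h | h
  · rw [h, hb.add_right, hbF, hbF] at e1
    obtain ⟨p, hp⟩ : ∃ p, c i + c j = 2 * p := ⟨(c i + c j) / 2, by omega⟩
    refine ⟨s * p, ?_⟩
    have : 4 * b α x = 4 * (s * (c i + c j)) := by linarith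
    rw [hp] at this; linarith
  · rw [h, hb.sub_right, hbF, hbF] at e1
    obtain ⟨p, hp⟩ : ∃ p, c i - c j = 2 * p := ⟨(c i - c j) / 2, by omega⟩
    refine ⟨s * p, ?_⟩
    have : 4 * b α x = 4 * (s * (c i - c j)) := by linarith
    rw [hp] at this; linarith
  · rw [h, hb.neg_right, hb.add_right, hbF, hbF] at e1
    obtain ⟨p, hp⟩ : ∃ p, c i + c j = 2 * p := ⟨(c i + c j) / 2, by omega⟩
    refine ⟨-(s * p), ?_⟩
    have : 4 * b α x = -(4 * (s * (c i + c j))) := by linarith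
    rw [hp] at this; linarith

theorem t_ncap : T_NCAP := by
  intro M _ b C s τ hb hC hs hτ hm
  cases τ with
  | A k =>
    obtain ⟨hk, v, hv, h⟩ := hτ
    rcases hm with rfl | rfl
    · exact ncapA2 hb hC hs hv h
    · exact ncapA3 hb hC hs hv h
  | D k =>
    obtain ⟨hk, F, hF, h⟩ := hτ
    have hm' : k = 4 := hm
    subst hm'
    exact ncapD4 hb hC.pos hs hF h
  | E k => exact hm.elim

end Pool.Agent.CN2.H71

end
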