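import Pool.Agent.Helper25_CN2.Stmts
import Pool.Agent.Helper25_CON.PDLem
import Pool.Agent.Helper25_CON.ENor

/-!
Squad CN2, module X_NEW: a neighbour without new roots is bad.
-/

noncomputable section

namespace Pool.Agent.CN2.H71

open Pool.Agent.H25Cong Pool.Agent.CON Pool.Agent.CN2

variable {M : Type} [AddCommGroup M] {b : M → M → ℤ}

/-- an odd root of the neighbour is a new root -/
lemma newR_of_root (hb : PD b) {x y y0 : M} {c m : ℤ} (hx : b x x = 8 * m + 4)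
    (hy0 : ¬ (2 : ℤ) ∣ b x y0) (hyc : (2 : ℤ) ∣ b y x - c) (hc : ¬ (2 : ℤ) ∣ c)
    (ht0 : (2 : ℤ) • y - c • x ≠ 0)
    (htr : ∀ t, InN b x t →
      b ((2 : ℤ) • y - c • x) ((2 : ℤ) • y - c • x) ∣ 2 * b ((2 : ℤ) • y - c • x) t) :
    ∃ ρ, NewR b x ((2 : ℤ) • y - c • x) ρ := by
  obtain ⟨d, hd⟩ : ∃ d : ℤ, c = 2 * d - 1 := ⟨(c + 1) / 2, by omega⟩
  obtain ⟨e, he⟩ : ∃ e : ℤ, b y x = 2 * e + 1 := ⟨(b y x) / 2, by omega⟩
  obtain ⟨f, hf⟩ := hb.even y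
  set t : M := (2 : ℤ) • y - c • x with ht
  have htz : t = x + (2 : ℤ) • (y - d • x) := by
    rw [ht, hd, sub_smul, smul_sub, smul_smul, one_smul]
    abel
  have hnorm : b t t = 4 * b y y - 4 * c * b y x + c * c * b x x := by
    rw [ht, hb.sub_left, hb.sub_right, hb.sub_right]
    simp only [hb.zsmul_left, hb.zsmul_right]
    rw [hb.symm x y]; ring
  have h8 : ∃ r : ℤ, b t t = 8 * r := by
    refine ⟨f - (2 * d - 1) * e - d + 1 + (2 * d - 1) * (2 * d - 1) * m + 2 * d * d - 2 * d, ?_⟩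
    rw [hnorm, hf, hx, he, hd]; ring
  obtain ⟨r, hr⟩ := h8
  have hpos := hb.pos t ht0
  have hrpos : 0 < r := by omega
  have hdiv : ∀ y', (2 : ℤ) ∣ b x y' → 2 * r ∣ b t y' := by
    intro y' hy'
    have h1 := htr ((2 : ℤ) • y') ⟨y', 0, by simp, by rw [hb.symm]; simpa using hy'⟩
    rw [hb.zsmul_right, hr] at h1
    obtain ⟨q, hq⟩ := h1
    exact ⟨q, by linarith⟩
  have hodd : ¬ (2 : ℤ) ∣ b t y0 := by
    rw [htz, hb.add_left, hb.zsmul_left]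
    omega
  have h2 : 2 * r ∣ 2 * b t y0 := by
    have := hdiv ((2 : ℤ) • y0) ⟨b x y0, by rw [hb.zsmul_right]⟩
    rwa [hb.zsmul_right] at this
  have h3 : r ∣ b t y0 := by
    obtain ⟨q, hq⟩ := h2
    exact ⟨q, by linarith⟩
  have h4 : ¬ (2 : ℤ) ∣ r := fun h => hodd (h.trans h3)
  exact ⟨2 * r, ⟨_, htz⟩, by omega, by omega, by rw [hr]; ring, hdiv⟩

/-- a change of the representative of the class -/
lemma newR_shift (hb : PD b) {x z t : M} {ρ : ℤ} (h : NewR b (x + (2 : ℤ) • z) t ρ) :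
    NewR b x t ρ := by
  obtain ⟨⟨w, hw⟩, h1, h2, h3, h4⟩ := h
  refine ⟨⟨z + w, by rw [hw, smul_add]; abel⟩, h1, h2, h3, fun y hy => h4 y ?_⟩
  rw [hb.add_left, hb.zsmul_left]
  exact dvd_add hy ⟨_, rfl⟩

/-- new roots exist when the neighbour of a good class is generated by its roots -/
lemma exists_newR (hb : PD b) (hbad : ¬ Bad b) {x y0 : M} {m : ℤ} (hx : b x x = 8 * m + 4)
    (hy0 : ¬ (2 : ℤ) ∣ b x y0) : ∃ t ρ, NewR b x t ρ := by
  by_contra hno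
  push Not at hno
  refine hbad ⟨x, ⟨m, hx⟩, ?_⟩
  refine Pool.Agent.CON.H25.not_RGN hb (by rw [hx]; omega) hy0 ?_
  rintro y c hyc hc ⟨ht0, htr⟩
  obtain ⟨ρ, hρ⟩ := newR_of_root hb hx hy0 hyc hc ht0 htr
  exact hno _ _ hρ

theorem x_new : X_NEW := by
  rintro M _ b x hb hbad h4 ⟨y0, hy0⟩
  obtain ⟨q, hq⟩ := h4
  rcases Int.even_or_odd q with ⟨q', hq'⟩ | ⟨q', hq'⟩
  · obtain ⟨a, ha⟩ : ∃ a : ℤ, b x y0 = 2 * a + 1 := ⟨b x y0 / 2, by omega⟩
    obtain ⟨c, hc⟩ := hb.even y0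
    have hx' : b (x + (2 : ℤ) • y0) (x + (2 : ℤ) • y0) = 8 * (q' + a + c) + 4 := by
      rw [hb.add_left, hb.add_right, hb.add_right, hb.zsmul_left, hb.zsmul_right,
        hb.zsmul_left, hb.zsmul_right, hb.symm y0 x, hq, ha, hc, hq']
      ring
    have hy' : ¬ (2 : ℤ) ∣ b (x + (2 : ℤ) • y0) y0 := by
      rw [hb.add_left, hb.zsmul_left]; omega
    obtain ⟨t, ρ, h⟩ := exists_newR hb hbad hx' hy'
    exact ⟨t, ρ, newR_shift hb h⟩
  · exact exists_newR hb hbad (m := q') (by rw [hq, hq']; ring) hy0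

end Pool.Agent.CN2.H71

end
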